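import Pool.Agent.U630.HZ.Main

/-!
# Equivalence up to Hurwitz moves and global conjugation is undecidable

The surface is the closed oriented surface `Σ` of genus six, as in the earlier result
`HurwitzUndecidable` (for Hurwitz moves only), whose library `Pool.Agent.Y524H` is used.

Outline of the proof. Let `L` be the left half of `Σ`, of genus three, `θ` the involution exchanging
the halves, which is a product of eight positive twists, `R₀ = θ θ` the factorization of the
identity, and for a finite set `S` of mapping classes of `L` let `τ_S` be the product of `R₀`, the
`s R₀ s⁻¹` and the `s t R₀ (s t)⁻¹`, `s, t ∈ S`. The group `H_S` generated by the twists of `τ_S`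
contains the commutators of the group generated by `S`.

1. If `S` generates the mapping class group of `L`, then `H_S` is the whole mapping class group:
the mapping class group of `L` is perfect (a chain relation and a star relation, found and
checked by computation with tables of words), `θ` carries its twists to the right half, and one
of the eight twists gives Lickorish's curve which crosses the middle.

2. For relators `r` of a group `G` with two generators `p₀, p₁` let `S_r` consist of some fixed
mapping classes and of the pushes of a foot of a handle of `L` along the relators, all of which
preserve a map `Φ` from `π₁(Σ)` onto `G`. If `G` is trivial, then all pushes are in the group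
generated by `S_r`, and so are all of Lickorish's twists of `L`. If `G` is not trivial, then a twist
about a curve sent by `Φ` to `p₀` or `p₁` does not preserve `Φ` up to conjugacy and is not in
`H_{S_r}`. So `H_{S_r}` is the whole mapping class group if and only if `G` is trivial.

3. If `P` and `Q` are sequences of conjugates of `R₀` and the twists of `P` generate the mapping
class group, then all members of `Q` may be replaced by `R₀` by Hurwitz moves in `P Q`. So if `G` is
trivial, then the product `x_r` of `τ_{S_r}` and `73` copies of `R₀` is Hurwitz equivalent to the
product `y` of `τ_S` and `N` copies of `R₀`, where `S` consists of the eight Lickorish twists of `L`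
and `N` depends on the number of relators only. The property that the twists generate the mapping
class group is invariant under Hurwitz moves and global conjugations; `y` has it, and `x_r` has it
only if `G` is trivial.

4. Triviality is undecidable for the groups with two generators and relators from a computable
sequence of lists of constant length (`Pool.Agent.U630.HZ.AR2`, a form of the theorem of Adian and
Rabin).
-/

set_option autoImplicit false

namespace Pool.Agent.Results.MP_1b0330_gt.GlobalConjugation

open Pool.Agent.Y524H

/-- The mapping class group of the closed oriented surface of genus six, as the subgroup of the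
outer automorphism group of the fundamental group which is generated by the Dehn twists about
Lickorish's curves. -/
def MCG : Subgroup OutPi :=
  Subgroup.closure (Set.range fun l : Lick => (QuotientGroup.mk (twist l) : OutPi))

/-- Hurwitz moves, and global conjugation by a mapping class. -/
inductive Move : List OutPi → List OutPi → Prop
  | hurwitz (u v : List OutPi) (h : HurwitzMove u v) : Move u v
  | global (u : List OutPi) (γ : OutPi) (hγ : γ ∈ MCG) : Move u (u.map fun t => γ * t * γ⁻¹)

/-- Equivalence up to Hurwitz moves and global conjugation: the equivalence relation generated by
the Hurwitz moves and the global conjugations. -/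
def Equivalent (u v : List OutPi) : Prop := Relation.EqvGen Move u v

theorem equivalent_iff (u v : List OutPi) : Equivalent u v ↔ Pool.Agent.U630.HZ.Eqv u v := by
  constructor
  · intro h
    induction h with
    | rel _ _ h =>
      cases h with
      | hurwitz _ h => exact Relation.EqvGen.rel _ _ (Pool.Agent.U630.HZ.Step.hurwitz h)
      | global γ hγ => exact Relation.EqvGen.rel _ _ (Pool.Agent.U630.HZ.Step.conj _ γ hγ)
    | refl _ => exact Relation.EqvGen.refl _
    | symm _ _ _ h => exact Relation.EqvGen.symm _ _ h
    | trans _ _ _ _ _ h1 h2 => exact Relation.EqvGen.trans _ _ _ h1 h2
  · intro h
    induction h with
    | rel _ _ h =>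
      cases h with
      | hurwitz h => exact Relation.EqvGen.rel _ _ (Move.hurwitz _ _ h)
      | conj γ hγ => exact Relation.EqvGen.rel _ _ (Move.global _ γ hγ)
    | refl _ => exact Relation.EqvGen.refl _
    | symm _ _ _ h => exact Relation.EqvGen.symm _ _ h
    | trans _ _ _ _ _ h1 h2 => exact Relation.EqvGen.trans _ _ _ h1 h2

/-- In the mapping class group of the closed surface of genus six there is a factorization `y` of
the identity into positive Dehn twists such that no algorithm decides which factorizations of the
identity into positive Dehn twists are equivalent to `y` up to Hurwitz moves and global conjugation;
in particular no algorithm decides this equivalence for pairs of such factorizations. -/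
theorem result : (∃ y : List Entry, IsFactorization y ∧
    ¬ ∃ f : List Entry → Bool, Computable f ∧ ∀ x : List Entry, IsFactorization x →
      (f x = true ↔ Equivalent (y.map dehn) (x.map dehn))) ∧
    ¬ ∃ f : List Entry × List Entry → Bool, Computable f ∧ ∀ x y : List Entry,
      IsFactorization x → IsFactorization y →
        (f (x, y) = true ↔ Equivalent (x.map dehn) (y.map dehn)) := by
  obtain ⟨y, hy, h1, _⟩ := Pool.Agent.U630.HZ.undecidable_main
  refine ⟨⟨y, hy, ?_⟩, ?_⟩
  · rintro ⟨f, hf, hfx⟩
    exact h1 ⟨f, hf, fun x hx => (hfx x hx).trans (equivalent_iff _ _)⟩
  · rintro ⟨f, hf, hfx⟩
    refine h1 ⟨fun x => f (y, x), hf.comp (Computable.pair (Computable.const y) Computable.id),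
      fun x hx => (hfx y x hy hx).trans (equivalent_iff _ _)⟩

end Pool.Agent.Results.MP_1b0330_gt.GlobalConjugation
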